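import Mathlib

/-!
Definitions used in the statements of the two-weight bump theorems for maximal
Calderon-Zygmund operators.
-/

open MeasureTheory Set
open scoped ENNReal NNReal

namespace Pool.Agent.MP_6bb8b9_an.Stmt

/-- The cube with sides parallel to the axes, lowest corner `a` and side length `l`. -/
def cube {n : ℕ} (a : EuclideanSpace ℝ (Fin n)) (l : ℝ) : Set (EuclideanSpace ℝ (Fin n)) :=
  {x | ∀ i, a i ≤ x i ∧ x i < a i + l}

/-- The average of a nonnegative function `h` over the cube with corner `a` and side `l`. -/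
noncomputable def avg {n : ℕ} (h : EuclideanSpace ℝ (Fin n) → ℝ≥0∞)
    (a : EuclideanSpace ℝ (Fin n)) (l : ℝ) : ℝ≥0∞ :=
  (∫⁻ x in cube a l, h x) / volume (cube a l)

/-- `ρ` is a rearrangement-invariant Banach function norm over the measure `μ` (properties P1 to
P5 of Bennett and Sharpley, and invariance under equimeasurability). The norm of a function `f`
in the space `X` is `ρ` applied to the absolute value of `f`. -/
structure IsRINorm {α : Type} [MeasurableSpace α] (μ : Measure α) (ρ : (α → ℝ≥0∞) → ℝ≥0∞) :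
    Prop where
  eq_zero_iff : ∀ f, AEMeasurable f μ → (ρ f = 0 ↔ f =ᵐ[μ] 0)
  smul : ∀ (c : ℝ≥0) f, AEMeasurable f μ → ρ (fun x => c * f x) = c * ρ f
  add_le : ∀ f g, AEMeasurable f μ → AEMeasurable g μ → ρ (f + g) ≤ ρ f + ρ g
  mono : ∀ f g, AEMeasurable f μ → AEMeasurable g μ → f ≤ᵐ[μ] g → ρ f ≤ ρ g
  fatou : ∀ (F : ℕ → α → ℝ≥0∞) f, (∀ k, AEMeasurable (F k) μ) → AEMeasurable f μ →
    (∀ᵐ x ∂μ, Monotone (fun k => F k x) ∧ ⨆ k, F k x = f x) → ⨆ k, ρ (F k) = ρ f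
  indicator_lt_top : ∀ A, MeasurableSet A → μ A < ∞ → ρ (A.indicator 1) < ∞
  lintegral_le : ∀ A, MeasurableSet A → μ A < ∞ →
    ∃ C < ∞, ∀ f, AEMeasurable f μ → ∫⁻ x in A, f x ∂μ ≤ C * ρ f
  rearr : ∀ f g, AEMeasurable f μ → AEMeasurable g μ →
    (∀ t : ℝ≥0, μ {x | (t : ℝ≥0∞) < f x} = μ {x | (t : ℝ≥0∞) < g x}) → ρ f = ρ g

/-- The associate norm (the norm of the associate space). -/
noncomputable def assocNorm {α : Type} [MeasurableSpace α] (μ : Measure α)
    (ρ : (α → ℝ≥0∞) → ℝ≥0∞) (g : α → ℝ≥0∞) : ℝ≥0∞ :=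
  ⨆ (f : α → ℝ≥0∞) (_ : AEMeasurable f μ) (_ : ρ f ≤ 1), ∫⁻ x, f x * g x ∂μ

/-- The normalized local norm on the cube with corner `a` and side `l`: the norm of the dilate
by `l` of `f` times the indicator of the cube. -/
noncomputable def localNorm {n : ℕ} (ρ : (EuclideanSpace ℝ (Fin n) → ℝ≥0∞) → ℝ≥0∞)
    (f : EuclideanSpace ℝ (Fin n) → ℝ≥0∞) (a : EuclideanSpace ℝ (Fin n)) (l : ℝ) : ℝ≥0∞ :=
  ρ (fun x => (cube a l).indicator f (l • x))

/-- The maximal operator of the norm `ρ`: supremum of the local norms over cubes containing `x`. -/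
noncomputable def maxOp {n : ℕ} (ρ : (EuclideanSpace ℝ (Fin n) → ℝ≥0∞) → ℝ≥0∞)
    (g : EuclideanSpace ℝ (Fin n) → ℝ≥0∞) (x : EuclideanSpace ℝ (Fin n)) : ℝ≥0∞ :=
  ⨆ (a : EuclideanSpace ℝ (Fin n)) (l : ℝ) (_ : 0 < l) (_ : x ∈ cube a l), localNorm ρ g a l

/-- The operator norm on `L^q` of the maximal operator of `ρ` (infinite if it is unbounded). -/
noncomputable def maxOpNorm {n : ℕ} (ρ : (EuclideanSpace ℝ (Fin n) → ℝ≥0∞) → ℝ≥0∞)
    (q : ℝ) : ℝ≥0∞ :=
  sInf {N : ℝ≥0∞ | ∀ g, AEMeasurable g volume → eLpNorm g (ENNReal.ofReal q) volume < ∞ →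
    eLpNorm (maxOp ρ g) (ENNReal.ofReal q) volume ≤ N * eLpNorm g (ENNReal.ofReal q) volume}

/-- The weak `L^p` quasi-norm of a nonnegative function with respect to a measure. -/
noncomputable def weakNorm {α : Type} [MeasurableSpace α] (g : α → ℝ≥0∞) (p : ℝ)
    (μ : Measure α) : ℝ≥0∞ :=
  ⨆ t : ℝ≥0, t * μ {x | (t : ℝ≥0∞) < g x} ^ (1 / p)

/-- Test functions: smooth with compact support. -/
def IsTest {E 𝕜 : Type} [NormedAddCommGroup E] [NormedSpace ℝ E] [RCLike 𝕜] (f : E → 𝕜) : Prop :=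
  (∀ m : ℕ, ContDiff ℝ m f) ∧ HasCompactSupport f

/-- `T` is a Calderon-Zygmund operator with kernel `K` on the space `E` of dimension `n` with
measure `μ`: on test functions it is linear and bounded on `L^2`, the kernel has the size and
Hoelder regularity bounds, and it represents `T` on test functions off their support. Only the
values of `T` on test functions matter. -/
structure IsCZO {E 𝕜 : Type} [NormedAddCommGroup E] [NormedSpace ℝ E] [MeasurableSpace E]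
    [RCLike 𝕜] (μ : Measure E) (n : ℕ) (T : (E → 𝕜) → E → 𝕜) (K : E → E → 𝕜) : Prop where
  linear : ∀ (c : 𝕜) f g, IsTest f → IsTest g →
    T (fun x => c * f x + g x) =ᵐ[μ] fun x => c * T f x + T g x
  bounded : ∃ B : ℝ≥0, ∀ f, IsTest f → MemLp (T f) 2 μ ∧ eLpNorm (T f) 2 μ ≤ B * eLpNorm f 2 μ
  bounds : ∃ c δ : ℝ, 0 < δ ∧ (∀ x y, x ≠ y → ‖K x y‖ ≤ c * ‖x - y‖ ^ (-(n : ℝ))) ∧
    ∀ x y z, 2 * ‖x - z‖ < ‖x - y‖ →
      ‖K x y - K z y‖ + ‖K y x - K y z‖ ≤ c * ‖x - z‖ ^ δ * ‖x - y‖ ^ (-(n : ℝ) - δ)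
  repr : ∀ f, IsTest f → ∀ᵐ x ∂μ, x ∉ tsupport f → T f x = ∫ y, K x y * f y ∂μ

open Classical in
/-- The maximal singular integral: the supremum over `ε > 0` of the absolute value of the
truncated integral; a truncated integral that does not converge absolutely counts as infinite. -/
noncomputable def maxSing {E 𝕜 : Type} [NormedAddCommGroup E] [MeasurableSpace E] [RCLike 𝕜]
    (μ : Measure E) (K : E → E → 𝕜) (g : E → 𝕜) (x : E) : ℝ≥0∞ :=
  ⨆ (ε : ℝ) (_ : 0 < ε),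
    if IntegrableOn (fun y => K x y * g y) {y | ε < ‖y - x‖} μ then
      ‖∫ y in {y | ε < ‖y - x‖}, K x y * g y ∂μ‖ₑ
    else ∞

end Pool.Agent.MP_6bb8b9_an.Stmt
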