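import Pool.Agent.MP_6bb8b9_an.H2.Glue
import Pool.Agent.MP_6bb8b9_an.Stmt.Defs

/-!
The definitions of the statements agree with those used in the proofs; an operator that is
bounded on test functions extends to `L^2`.
-/

open MeasureTheory Set Filter
open scoped ENNReal NNReal

namespace Pool.Agent.MP_6bb8b9_an.Stmt

open H2 (Euc)

variable {n : ℕ} {𝕜 : Type} [RCLike 𝕜]

lemma IsRINorm.toH2 {ρ : (Euc n → ℝ≥0∞) → ℝ≥0∞} (h : IsRINorm volume ρ) : H2.IsRINorm ρ :=
  ⟨h.1, h.2, h.3, h.4, h.5, h.6, h.7, h.8⟩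

lemma IsTest.memLp {f : Euc n → 𝕜} (h : IsTest f) : MemLp f 2 volume :=
  (h.1 0).continuous.memLp_of_hasCompactSupport h.2

/-- The space of test functions. -/
def testSpace (n : ℕ) (𝕜 : Type) [RCLike 𝕜] : Submodule 𝕜 (Euc n → 𝕜) where
  carrier := {f | IsTest f}
  add_mem' := fun hf hg => ⟨fun m => (hf.1 m).add (hg.1 m), hf.2.add hg.2⟩
  zero_mem' := ⟨fun _ => contDiff_const, HasCompactSupport.zero⟩
  smul_mem' := fun c f hf => ⟨fun m => (hf.1 m).const_smul c,
    hf.2.smul_left (f := fun _ => c)⟩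

theorem IsCZO.toH2 {T : (Euc n → 𝕜) → Euc n → 𝕜} {K : Euc n → Euc n → 𝕜}
    (h : IsCZO volume n T K) : ∃ T', H2.IsCZO T' K := by
  obtain ⟨B, hB⟩ := h.bounded
  have h0 : T (fun _ => 0) =ᵐ[volume] 0 := by
    have h1 := (hB _ (testSpace n 𝕜).zero_mem)
    have h2 := h1.2
    rw [eLpNorm_zero, mul_zero, nonpos_iff_eq_zero,
      eLpNorm_eq_zero_iff h1.1.aestronglyMeasurable (by norm_num)] at h2
    exact h2
  let e : testSpace n 𝕜 →ₗ[𝕜] Lp 𝕜 2 (volume : Measure (Euc n)) :=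
    { toFun := fun f => (IsTest.memLp f.2).toLp f.1
      map_add' := fun f g => rfl
      map_smul' := fun c f => rfl }
  let S : testSpace n 𝕜 →ₗ[𝕜] Lp 𝕜 2 (volume : Measure (Euc n)) :=
    { toFun := fun f => (hB f.1 f.2).1.toLp (T f.1)
      map_add' := fun f g => by
        rw [← MemLp.toLp_add]
        refine MemLp.toLp_congr _ _ ?_
        have := h.linear 1 f.1 g.1 f.2 g.2
        simp only [one_mul] at this
        exact this
      map_smul' := fun c f => by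
        rw [RingHom.id_apply, ← MemLp.toLp_const_smul]
        refine MemLp.toLp_congr _ _ ?_
        have := h.linear c f.1 (fun _ => 0) f.2 (testSpace n 𝕜).zero_mem
        simp only [add_zero] at this
        filter_upwards [this, h0] with x hx hx0
        simp only [Pi.zero_apply] at hx0
        rw [hx0, add_zero] at hx
        exact hx }
  have hd : DenseRange e := by
    refine (Lp.dense_hasCompactSupport_contDiff (F := 𝕜) (μ := (volume : Measure (Euc n)))
      (p := 2) (by norm_num)).mono ?_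
    rintro f ⟨g, hfg, hg1, hg2⟩
    have hg : IsTest g := ⟨fun m => hg2.of_le (by exact_mod_cast le_top), hg1⟩
    exact ⟨⟨g, hg⟩, Lp.ext (hg.memLp.coeFn_toLp.trans hfg.symm)⟩
  have hn : ∃ C, ∀ f, ‖S f‖ ≤ C * ‖e f‖ := by
    refine ⟨B, fun f => ?_⟩
    change ‖(hB f.1 f.2).1.toLp (T f.1)‖ ≤ B * ‖(IsTest.memLp f.2).toLp f.1‖
    rw [Lp.norm_toLp, Lp.norm_toLp, ← ENNReal.coe_toReal, ← ENNReal.toReal_mul]
    exact ENNReal.toReal_mono (ENNReal.mul_ne_top ENNReal.coe_ne_top (IsTest.memLp f.2).2.ne)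
      (hB f.1 f.2).2
  refine ⟨S.extendOfNorm e, h.bounds, fun f hf1 hf2 h2 => ?_⟩
  have h3 : S.extendOfNorm e (h2.toLp f) = S ⟨f, hf1, hf2⟩ :=
    LinearMap.extendOfNorm_eq hd hn ⟨f, hf1, hf2⟩
  rw [h3]
  filter_upwards [h.repr f ⟨hf1, hf2⟩, (hB f ⟨hf1, hf2⟩).1.coeFn_toLp] with x hx hx' hxs
  exact hx'.trans (hx hxs)

end Pool.Agent.MP_6bb8b9_an.Stmt
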